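import Pool.Agent.Q95.AP.First

namespace Pool.Agent.Results.MP_bcda77_nt.AlmostPerfect

/-- sum of the positive divisors of `m` -/
def sig (m : ℕ) : ℕ := ∑ d ∈ m.divisors, d

/-- the least `k ≥ 1` with `k` deficient and `k n` non-deficient -/
noncomputable def a (n : ℕ) : ℕ :=
  sInf {k | 1 ≤ k ∧ sig k < 2 * k ∧ 2 * (k * n) ≤ sig (k * n)}

/-- the least prime above `2^m` -/
noncomputable def pm (m : ℕ) : ℕ := sInf {q | q.Prime ∧ 2 ^ m < q}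

theorem result : ∀ m, 1 ≤ m →
    (∀ n, 2 ≤ n → n < pm m → a n ≠ 2 ^ m) ∧
    (a (pm m) ≠ 2 ^ m →
      sig (a (pm m)) + 1 = 2 * a (pm m) ∧ pm m + 1 ≤ 2 * a (pm m) ∧ a (pm m) < 2 ^ m) ∧
    (IsLeast {n | 2 ≤ n ∧ a n = 2 ^ m} (pm m) ↔
      ¬ ∃ k, sig k + 1 = 2 * k ∧ pm m + 1 ≤ 2 * k ∧ k < 2 ^ m) := by
  intro m hm
  exact ⟨fun n h2 hn => Q95.AP.no_smaller hm h2 hn, Q95.AP.a_pm_ne hm, Q95.AP.least_iff hm⟩

end Pool.Agent.Results.MP_bcda77_nt.AlmostPerfect
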